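import Pool.Agent.W622.ETG.Lin

set_option autoImplicit false

/-!
ELG-MCE: two intersecting different maximal cones, first reduction.
-/

namespace Pool.Agent.W554.ELG

open Pool.Agent.W622.ETG Module

theorem t_MCE (hNF : S_NF) (hSPLIT : S_SPLIT) (hES1 : S_ES1) (hBLK : S_BLK) (hA1 : S_A1) :
    S_MCE := by
  intro V _ _ _ e A M M' p' h hMC hM hM' hp' hne hh hh' h0
  have hBM : Block e A M := Or.inl hM
  have hBM' : Block e A M' := Or.inl hM'
  obtain ⟨h3, hpM', hp0, hpe, hwdA⟩ := hp'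
  -- different components are disjoint
  have hdisj : ∀ (s : Set (DSub V)), sSupIndep s → ∀ X ∈ s, ∀ Y ∈ s, X ≠ Y →
      ∀ f, f ∈ X → f ∈ Y → f = 0 := by
    intro s hs X hX Y hY hXY f hfX hfY
    have h1 : Disjoint X Y := hs.pairwiseDisjoint hX hY hXY
    have h2 : f ∈ X ⊓ Y := ⟨hfX, hfY⟩
    rw [h1.eq_bot] at h2
    exact h2
  have hsup : M ⊔ M' = ⊤ := by
    by_contra hc
    obtain ⟨b, hb, hle⟩ := exists_ann hc
    obtain ⟨hEF, s, hs⟩ := hNF V e _ (hMC.el (ann b) (ann_ne_top hb))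
    have h1 := hBLK V e A M (ann b) s hMC.ef hBM (le_sup_left.trans hle) hs
    have h2 := hBLK V e A M' (ann b) s hMC.ef hBM' (le_sup_right.trans hle) hs
    exact h0 (hdisj s hs.1 M h1 M' h2 hne h hh hh')
  have hd := hA1 V e A M hMC hM.1
  have hn : finrank (ZMod 2) (Dl V) = finrank (ZMod 2) V := finrank_Dl
  have hW : M ⊔ Submodule.span (ZMod 2) {p'} ≠ ⊤ := by
    intro hc
    have h1 := Submodule.finrank_sup_add_finrank_inf_eq M (Submodule.span (ZMod 2) {p'})
    rw [hc, finrank_top, finrank_span_singleton hp0] at h1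
    omega
  obtain ⟨c, hc, hle⟩ := exists_ann hW
  have hMc : M ≤ ann c := le_sup_left.trans hle
  have hpc : p' c = 0 := hle (Submodule.mem_sup_right (Submodule.mem_span_singleton_self p'))
  obtain ⟨hEF, s, hs⟩ := hNF V e _ (hMC.el (ann c) (ann_ne_top hc))
  have hMs := hBLK V e A M (ann c) s hMC.ef hBM hMc hs
  set Z : DSub V := M' ⊓ ann c with hZ
  have hac : finrank (ZMod 2) (ann c : DSub V) + 1 = finrank (ZMod 2) V := finrank_ann hc
  have hdZ : finrank (ZMod 2) M' ≤ finrank (ZMod 2) Z + 1 := by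
    have h1 := Submodule.finrank_sup_add_finrank_inf_eq M' (ann c)
    have h2 : finrank (ZMod 2) (M' ⊔ ann c : DSub V) ≤ finrank (ZMod 2) (Dl V) :=
      Submodule.finrank_le _
    rw [← hZ] at h1
    omega
  have hpZ : p' ∈ Z := ⟨hpM', hpc⟩
  have hhZ : h ∈ Z := ⟨hh', hMc hh⟩
  have hZM : ¬ Z ≤ M := by
    intro hc
    have h1 := Submodule.finrank_sup_add_finrank_inf_eq M M'
    rw [hsup, finrank_top] at h1
    have h2 : finrank (ZMod 2) Z ≤ finrank (ZMod 2) (M ⊓ M' : DSub V) :=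
      Submodule.finrank_mono (le_inf hc inf_le_left)
    omega
  have hwd : ∀ g ∈ Z, wd e p' g ∈ res A (ann c) := by
    intro g hg
    rw [mem_res_ann hMC.ef]
    refine ⟨hwdA g hg.1, ?_⟩
    have h1 : g c = 0 := hg.2
    rw [wd_val_zero hpc, h1, zero_smul]
  have hsmall : ¬ (3 ≤ finrank (ZMod 2) Z ∨ (2 ≤ finrank (ZMod 2) Z ∧ Z ≤ ann e)) := by
    intro hc
    obtain ⟨X, hX, hle⟩ := hES1 V e (res A (ann c)) s Z p' hEF hs hp0 hpZ hpe hc hwd
    by_cases hXM : X = M
    · exact hZM (hXM ▸ hle)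
    · exact h0 (hdisj s hs.1 X hX M hMs hXM h (hle hhZ) hh)
  push Not at hsmall
  have hZ2 : finrank (ZMod 2) Z = 2 := by omega
  have hM3 : finrank (ZMod 2) M' = 3 := by omega
  obtain ⟨g, hgZ, hge⟩ : ∃ g ∈ Z, g e = 1 := by
    obtain ⟨g, hg, hge⟩ := Set.not_subset.1 (hsmall.2 (by omega))
    exact ⟨g, hg, z_ne hge⟩
  have hg0 : g ≠ 0 := by
    rintro rfl
    simp at hge
  have hgp : g ≠ p' := by
    rintro rfl
    rw [hpe] at hge
    exact absurd hge (by decide)
  have hZs : Submodule.span (ZMod 2) {p', g} = Z := by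
    apply Submodule.eq_of_le_of_finrank_le
    · rw [Submodule.span_le]
      intro x hx
      simp only [Set.mem_insert_iff, Set.mem_singleton_iff] at hx
      rcases hx with rfl | rfl
      · exact hpZ
      · exact hgZ
    · have h1 : Submodule.span (ZMod 2) {p'} < Submodule.span (ZMod 2) {p', g} := by
        refine lt_of_le_of_ne (Submodule.span_mono (by simp)) fun hc => ?_
        have h2 : g ∈ Submodule.span (ZMod 2) {p'} := by
          rw [hc]
          exact Submodule.subset_span (by simp)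
        rcases span_one_mem.1 h2 with h3 | h3
        · exact hg0 h3
        · exact hgp h3
      have h2 := Submodule.finrank_lt_finrank_of_lt h1
      rw [finrank_span_singleton hp0] at h2
      omega
  have hmemZ : ∀ x, x ∈ Z → x = 0 ∨ x = p' ∨ x = g ∨ x = p' + g := by
    intro x hx
    rw [← hZs] at hx
    exact span_pair_mem.1 hx
  -- the splitting
  obtain ⟨hS1, hS2, -⟩ := hSPLIT V e (res A (ann c)) s {M} hEF hs (by simpa using hMs)
  rw [sSup_singleton] at hS1 hS2
  set Nn : DSub V := sSup (s \ {M}) with hNn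
  have hw := hwd g hgZ
  rw [hS1] at hw
  obtain ⟨α, hα, β, hβ, hαβ⟩ := Submodule.mem_sup.1 hw
  rw [mem_res'] at hα hβ
  have hEα : EF e α := hEF α hα.1
  have hEβ : EF e β := hEF β hβ.1
  have hspd : Disjoint (sp α) (sp β) := hS2.mono hα.2 hβ.2
  have hspZ : sp α ⊔ sp β = Z := by
    rw [← sp_add hEα hEβ hspd, hαβ, sp_wd hp0 hg0 hgp, hZs]
  have hMN : ∀ f, f ∈ M → f ∈ Nn → f = 0 := by
    intro f h1 h2
    have h3 : f ∈ M ⊓ Nn := ⟨h1, h2⟩
    rw [hS2.eq_bot] at h3
    exact h3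
  have hα0 : α ≠ 0 := by
    rintro rfl
    rw [sp_zero, bot_sup_eq] at hspZ
    exact h0 (hMN h hh (hβ.2 (hspZ ▸ hhZ)))
  have hβ0 : β ≠ 0 := by
    rintro rfl
    rw [sp_zero, sup_bot_eq] at hspZ
    exact hZM (hspZ ▸ hα.2)
  have hdim := Submodule.finrank_sup_add_finrank_inf_eq (sp α) (sp β)
  rw [hspZ, hspd.eq_bot, finrank_bot, hZ2] at hdim
  have hα1 : finrank (ZMod 2) (sp α) ≠ 0 := by
    intro h1
    exact hα0 (sp_eq_bot.1 (Submodule.finrank_eq_zero.1 h1))
  have hβ1 : finrank (ZMod 2) (sp β) ≠ 0 := by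
    intro h1
    exact hβ0 (sp_eq_bot.1 (Submodule.finrank_eq_zero.1 h1))
  have hone : ∀ ω : Frm V, finrank (ZMod 2) (sp ω) = 1 →
      ∃ x ∈ sp ω, sp ω ≤ Submodule.span (ZMod 2) {x} := by
    intro ω hω
    obtain ⟨x, -, hx⟩ := finrank_eq_one_iff'.1 hω
    refine ⟨x, x.2, fun y hy => ?_⟩
    obtain ⟨a, ha⟩ := hx ⟨y, hy⟩
    rw [Submodule.mem_span_singleton]
    exact ⟨a, congrArg Subtype.val ha⟩
  obtain ⟨x, hxα, hxs⟩ := hone α (by omega)
  obtain ⟨y, hyβ, hys⟩ := hone β (by omega)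
  obtain ⟨hαx, hxe⟩ := hEα.eq_sqf hxs hα0
  obtain ⟨hβy, hye⟩ := hEβ.eq_sqf hys hβ0
  have hxM : x ∈ M := hα.2 hxα
  have hyN : y ∈ Nn := hβ.2 hyβ
  have hxZ : x ∈ Z := by rw [← hspZ]; exact Submodule.mem_sup_left hxα
  have hyZ : y ∈ Z := by rw [← hspZ]; exact Submodule.mem_sup_right hyβ
  have hx0 : x ≠ 0 := by
    rintro rfl
    simp at hxe
  have hy0 : y ≠ 0 := by
    rintro rfl
    simp at hye
  have hxy : x ≠ y := by
    rintro rfl
    exact hx0 (hMN x hxM hyN)
  have hcase : ∀ z, z ∈ Z → z e = 1 → z = g ∨ z = p' + g := by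
    intro z hz hze
    rcases hmemZ z hz with rfl | rfl | h1 | h1
    · simp at hze
    · rw [hpe] at hze
      exact absurd hze (by decide)
    · exact Or.inl h1
    · exact Or.inr h1
  have hyx : y = p' + x := by
    rcases hcase x hxZ hxe with h1 | h1 <;> rcases hcase y hyZ hye with h2 | h2
    · exact absurd (h1.trans h2.symm) hxy
    · rw [h2, h1]
    · rw [h2, h1, add_cancel_left']
    · exact absurd (h1.trans h2.symm) hxy
  have hhx : h = x := by
    have hZxy : h = 0 ∨ h = p' ∨ h = x ∨ h = y := by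
      rcases hmemZ h hhZ with h1 | h1 | h1 | h1
      · exact Or.inl h1
      · exact Or.inr (Or.inl h1)
      · rcases hcase x hxZ hxe with h2 | h2
        · exact Or.inr (Or.inr (Or.inl (h1.trans h2.symm)))
        · right; right; right
          rw [hyx, h2, add_cancel_left', h1]
      · rcases hcase x hxZ hxe with h2 | h2
        · right; right; right
          rw [hyx, h2, h1]
        · exact Or.inr (Or.inr (Or.inl (h1.trans h2.symm)))
    rcases hZxy with h1 | h1 | h1 | h1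
    · exact absurd h1 h0
    · exfalso
      have h2 : y ∈ M := by
        rw [hyx, ← h1]
        exact M.add_mem hh hxM
      exact hy0 (hMN y h2 hyN)
    · exact h1
    · exfalso
      exact h0 (hMN h hh (h1 ▸ hyN))
  refine ⟨hsup, hM3, ?_, ?_, ?_, ?_⟩
  · rw [hhx]; exact hxe
  · rw [hhx]
    rintro rfl
    rw [hpe] at hxe
    exact absurd hxe (by decide)
  · rw [hhx, ← hαx]
    exact hα.1.1
  · rw [hhx, ← hyx, ← hβy]
    exact hβ.1.1

end Pool.Agent.W554.ELG
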